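import Mathlib

/-!
# Clopen versus regular closed sets in closure spaces of semilattice type

We construct a (countable) closure space `(P, φ)` of semilattice type for which the poset
`Clop(P, φ)` of clopen sets is a lattice, although `Clop(P, φ) ≠ Reg(P, φ)`.
-/

namespace Pool.Agent.Results.MP_df2171_co.LatticeNotRegular

universe w

section Defs

variable {P : Type w}

/-- A closure space: an extensive, monotone, idempotent operator with `φ ∅ = ∅`. -/
structure IsClosureSpace (φ : Set P → Set P) : Prop where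
  ext : ∀ x, x ⊆ φ x
  mono : ∀ x y, x ⊆ y → φ x ⊆ φ y
  idem : ∀ x, φ (φ x) = φ x
  empty : φ ∅ = ∅

/-- Closed sets. -/
def ClosedSet (φ : Set P → Set P) (a : Set P) : Prop := φ a = a

/-- Open sets: the complement is closed. -/
def OpenSet (φ : Set P → Set P) (a : Set P) : Prop := ClosedSet φ aᶜ

/-- The interior `P \ φ(P \ a)`. -/
def inter (φ : Set P → Set P) (a : Set P) : Set P := (φ aᶜ)ᶜ

/-- Clopen sets. -/
def ClopenSet (φ : Set P → Set P) (a : Set P) : Prop := ClosedSet φ a ∧ OpenSet φ a

/-- Regular closed sets: `a = φ (interior a)`. -/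
def RegSet (φ : Set P → Set P) (a : Set P) : Prop := a = φ (inter φ a)

/-- Algebraic closure operators. -/
def Algebraic (φ : Set P → Set P) : Prop :=
  ∀ x, φ x = ⋃ y ∈ {y : Set P | y ⊆ x ∧ y.Finite}, φ y

/-- `x` is a minimal covering of `p`: inclusion-minimal with `p ∈ φ x`. -/
def MinCovering (φ : Set P → Set P) (x : Set P) (p : P) : Prop :=
  p ∈ φ x ∧ ∀ y, y ⊆ x → p ∈ φ y → y = x

/-- `p` is the join of `x` with respect to the partial order `o`. -/
def IsJoin (o : PartialOrder P) (x : Set P) (p : P) : Prop :=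
  (∀ s ∈ x, o.le s p) ∧ ∀ u, (∀ s ∈ x, o.le s u) → o.le p u

/-- Closure spaces of semilattice type. -/
def SemilatticeType (φ : Set P → Set P) : Prop :=
  IsClosureSpace φ ∧ Algebraic φ ∧
    ∃ o : PartialOrder P, ∀ (p : P) (x : Set P), MinCovering φ x p → IsJoin o x p

/-- The poset of clopen sets, ordered by inclusion, is a lattice: any two clopen sets have a
least upper bound and a greatest lower bound among the clopen sets. -/
def ClopIsLattice (φ : Set P → Set P) : Prop :=
  ∀ a b : {a : Set P // ClopenSet φ a},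
    (∃ c : {a : Set P // ClopenSet φ a}, IsLUB {a, b} c) ∧
    (∃ c : {a : Set P // ClopenSet φ a}, IsGLB {a, b} c)

/-- `Clop(P, φ) = Reg(P, φ)`. -/
def ClopEqReg (φ : Set P → Set P) : Prop := {a | ClopenSet φ a} = {a | RegSet φ a}

end Defs

/-- The ground set. -/
inductive Pt : Type
  | q : ℕ → Pt
  | A : ℕ → Pt
  | B : ℕ → Pt
  | a : ℕ → Pt
  | b : ℕ → Pt

open Pt

/-- The order on the ground set. -/
def le : Pt → Pt → Prop
  | q m, q n => n ≤ m
  | q m, A n => n + 1 ≤ m
  | q m, B n => n + 1 ≤ m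
  | q _, a _ => False
  | q _, b _ => False
  | A m, q n => n ≤ m
  | A m, A n => n ≤ m
  | A m, B n => n + 1 ≤ m
  | A _, a _ => False
  | A _, b _ => False
  | B m, q n => n ≤ m
  | B m, A n => n + 1 ≤ m
  | B m, B n => n ≤ m
  | B _, a _ => False
  | B _, b _ => False
  | a m, q n => n ≤ m
  | a m, A n => n ≤ m
  | a m, B n => n + 1 ≤ m
  | a m, a n => m = n
  | a _, b _ => False
  | b m, q n => n ≤ m
  | b m, A n => n + 1 ≤ m
  | b m, B n => n ≤ m
  | b _, a _ => False
  | b m, b n => m = n

/-- The partial order. -/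
@[instance_reducible]
def ord : PartialOrder Pt where
  le := le
  lt x y := le x y ∧ ¬ le y x
  le_refl := by
    intro x
    cases x <;> simp [le]
  le_trans := by
    intro x y z
    cases x <;> cases y <;> cases z <;> simp only [le] <;> intro h1 h2 <;>
      first | exact h1.elim | exact h2.elim | omega
  lt_iff_le_not_ge := by
    intro x y
    rfl
  le_antisymm := by
    intro x y
    cases x <;> cases y <;> simp only [le] <;> intro h1 h2 <;>
      first | exact h1.elim | exact h2.elim | (exfalso; omega) | (exact congrArg _ (by omega))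

/-- The generating rules `{s, t} → p`. -/
inductive Rule : Pt → Pt → Pt → Prop
  | r1 (n : ℕ) : Rule (A n) (b n) (q n)
  | r2 (n : ℕ) : Rule (a n) (B n) (q n)
  | r3 (n : ℕ) : Rule (A (n + 1)) (a n) (A n)
  | r4 (n : ℕ) : Rule (b (n + 1)) (a n) (A n)
  | r5 (n : ℕ) : Rule (a (n + 1)) (b n) (B n)
  | r6 (n : ℕ) : Rule (B (n + 1)) (b n) (B n)

/-- The generated closure. -/
inductive Cl (x : Set Pt) : Pt → Prop
  | base {p : Pt} : p ∈ x → Cl x p
  | rule {s t p : Pt} : Rule s t p → Cl x s → Cl x t → Cl x p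

/-- The closure operator. -/
def phi (x : Set Pt) : Set Pt := {p | Cl x p}

theorem phi_ext (x : Set Pt) : x ⊆ phi x := fun _ h => Cl.base h

theorem phi_least {x y : Set Pt} (hxy : x ⊆ y)
    (hy : ∀ s t p, Rule s t p → s ∈ y → t ∈ y → p ∈ y) : phi x ⊆ y := by
  intro p hp
  induction hp with
  | base h => exact hxy h
  | rule hr _ _ h1 h2 => exact hy _ _ _ hr h1 h2

theorem phi_rule (x : Set Pt) : ∀ s t p, Rule s t p → s ∈ phi x → t ∈ phi x → p ∈ phi x :=
  fun _ _ _ hr h1 h2 => Cl.rule hr h1 h2

theorem phi_mono {x y : Set Pt} (h : x ⊆ y) : phi x ⊆ phi y :=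
  phi_least (h.trans (phi_ext y)) (phi_rule y)

theorem phi_idem (x : Set Pt) : phi (phi x) = phi x :=
  Set.Subset.antisymm (phi_least (Set.Subset.refl _) (phi_rule x)) (phi_ext _)

theorem phi_closureSpace : IsClosureSpace phi where
  ext := phi_ext
  mono := fun _ _ h => phi_mono h
  idem := phi_idem
  empty := by
    apply Set.eq_empty_of_subset_empty
    exact phi_least (Set.Subset.refl _) (fun s t p _ h _ => h)

theorem closed_iff (x : Set Pt) :
    ClosedSet phi x ↔ ∀ s t p, Rule s t p → s ∈ x → t ∈ x → p ∈ x := by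
  constructor
  · intro h
    have := phi_rule x
    unfold ClosedSet at h
    rwa [h] at this
  · intro h
    exact Set.Subset.antisymm (phi_least (Set.Subset.refl _) h) (phi_ext x)

theorem open_iff (x : Set Pt) :
    OpenSet phi x ↔ ∀ s t p, Rule s t p → p ∈ x → s ∈ x ∨ t ∈ x := by
  unfold OpenSet
  rw [closed_iff]
  constructor
  · intro h s t p hr hp
    by_contra hcon
    push Not at hcon
    exact h s t p hr hcon.1 hcon.2 hp
  · intro h s t p hr hs ht hp
    rcases h s t p hr hp with h1 | h1
    · exact hs h1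
    · exact ht h1

theorem rule_join (s t p : Pt) (h : Rule s t p) :
    le s p ∧ le t p ∧ ∀ u, le s u → le t u → le p u := by
  cases h <;> refine ⟨by simp [le], by simp [le], ?_⟩ <;> intro u <;> cases u <;>
    simp only [le] <;> intro h1 h2 <;> first | exact h1.elim | exact h2.elim | omega

/-- Every covering contains a finite covering with the right join. -/
theorem cover (x : Set Pt) (p : Pt) (h : Cl x p) :
    ∃ y : Set Pt, y ⊆ x ∧ y.Finite ∧ Cl y p ∧ IsJoin ord y p := by
  induction h with
  | @base p hp =>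
    refine ⟨{p}, by simpa using hp, Set.finite_singleton _, Cl.base rfl, ?_, ?_⟩
    · intro s hs
      rw [Set.mem_singleton_iff] at hs
      rw [hs]
      exact ord.le_refl p
    · intro u hu
      exact hu p rfl
  | @rule s t p hr _ _ h1 h2 =>
    obtain ⟨y1, hy1, hf1, hc1, hj1⟩ := h1
    obtain ⟨y2, hy2, hf2, hc2, hj2⟩ := h2
    obtain ⟨r1, r2, r3⟩ := rule_join s t p hr
    refine ⟨y1 ∪ y2, Set.union_subset hy1 hy2, hf1.union hf2, ?_, ?_, ?_⟩
    · exact Cl.rule hr (phi_mono Set.subset_union_left hc1) (phi_mono Set.subset_union_right hc2)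
    · intro z hz
      rcases hz with hz | hz
      · exact ord.le_trans _ _ _ (hj1.1 z hz) r1
      · exact ord.le_trans _ _ _ (hj2.1 z hz) r2
    · intro u hu
      exact r3 u (hj1.2 u (fun z hz => hu z (Or.inl hz))) (hj2.2 u (fun z hz => hu z (Or.inr hz)))

theorem phi_semilatticeType : SemilatticeType phi := by
  refine ⟨phi_closureSpace, ?_, ord, ?_⟩
  · intro x
    apply Set.Subset.antisymm
    · intro p hp
      obtain ⟨y, hy, hf, hc, -⟩ := cover x p hp
      exact Set.mem_biUnion (show y ∈ {y : Set Pt | y ⊆ x ∧ y.Finite} from ⟨hy, hf⟩) hc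
    · intro p hp
      rw [Set.mem_iUnion₂] at hp
      obtain ⟨y, ⟨hy, -⟩, hc⟩ := hp
      exact phi_mono hy hc
  · intro p x hx
    obtain ⟨y, hy, -, hc, hj⟩ := cover x p hx.1
    have := hx.2 y hy hc
    rw [this] at hj
    exact hj

/-- The key fact: the closure of a union of two clopen sets is clopen. -/
theorem key (S T : Set Pt) (hS : ClopenSet phi S) (hT : ClopenSet phi T) :
    ClopenSet phi (phi (S ∪ T)) := by
  refine ⟨phi_idem _, ?_⟩
  set R := phi (S ∪ T) with hR
  have hSR : S ⊆ R := Set.subset_union_left.trans (phi_ext _)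
  have hTR : T ⊆ R := Set.subset_union_right.trans (phi_ext _)
  have hRc : ∀ s t p, Rule s t p → s ∈ R → t ∈ R → p ∈ R := phi_rule _
  -- two consequences for a clopen set inside `R`
  have e1 : ∀ C : Set Pt, ClopenSet phi C → C ⊆ R → ∀ n, A n ∈ C → a n ∉ R → b n ∈ R →
      B n ∈ R := by
    intro C hC hCR n hA ha hb
    have ho := (open_iff C).1 hC.2
    have hc := (closed_iff C).1 hC.1
    have h1 : A (n + 1) ∈ C := by
      rcases ho _ _ _ (Rule.r3 n) hA with h | h
      · exact h
      · exact absurd (hCR h) ha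
    have h2 : b (n + 1) ∈ C := by
      rcases ho _ _ _ (Rule.r4 n) hA with h | h
      · exact h
      · exact absurd (hCR h) ha
    have h3 : q (n + 1) ∈ C := hc _ _ _ (Rule.r1 (n + 1)) h1 h2
    rcases ho _ _ _ (Rule.r2 (n + 1)) h3 with h | h
    · exact hRc _ _ _ (Rule.r5 n) (hCR h) hb
    · exact hRc _ _ _ (Rule.r6 n) (hCR h) hb
  have e2 : ∀ C : Set Pt, ClopenSet phi C → C ⊆ R → ∀ n, B n ∈ C → b n ∉ R → a n ∈ R →
      A n ∈ R := by
    intro C hC hCR n hB hb ha
    have ho := (open_iff C).1 hC.2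
    have hc := (closed_iff C).1 hC.1
    have h1 : a (n + 1) ∈ C := by
      rcases ho _ _ _ (Rule.r5 n) hB with h | h
      · exact h
      · exact absurd (hCR h) hb
    have h2 : B (n + 1) ∈ C := by
      rcases ho _ _ _ (Rule.r6 n) hB with h | h
      · exact h
      · exact absurd (hCR h) hb
    have h3 : q (n + 1) ∈ C := hc _ _ _ (Rule.r2 (n + 1)) h1 h2
    rcases ho _ _ _ (Rule.r1 (n + 1)) h3 with h | h
    · exact hRc _ _ _ (Rule.r3 n) (hCR h) ha
    · exact hRc _ _ _ (Rule.r4 n) (hCR h) ha
  -- where do the elements `A n`, `B n` of `R` come from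
  have fA : ∀ n, A n ∈ R → a n ∉ R → A n ∈ S ∨ A n ∈ T := by
    intro n h ha
    cases h with
    | base h => exact h
    | rule hr h1 h2 =>
      cases hr
      · exact absurd h2 ha
      · exact absurd h2 ha
  have fB : ∀ n, B n ∈ R → b n ∉ R → B n ∈ S ∨ B n ∈ T := by
    intro n h hb
    cases h with
    | base h => exact h
    | rule hr h1 h2 =>
      cases hr
      · exact absurd h2 hb
      · exact absurd h2 hb
  rw [open_iff]
  intro s t p hr hp
  by_contra hcon
  push Not at hcon
  obtain ⟨hs, ht⟩ := hcon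
  cases hp with
  | base hp =>
    rcases hp with hp | hp
    · rcases (open_iff S).1 hS.2 s t p hr hp with h | h
      · exact hs (hSR h)
      · exact ht (hSR h)
    · rcases (open_iff T).1 hT.2 s t p hr hp with h | h
      · exact hs (hTR h)
      · exact ht (hTR h)
  | rule hr' h1 h2 =>
    rename_i s' t'
    have h1' : s' ∈ R := h1
    have h2' : t' ∈ R := h2
    cases hr with
    | r1 n =>
      cases hr' with
      | r1 => exact hs h1'
      | r2 =>
        rcases fB n h2' ht with h | h
        · exact hs (e2 S hS hSR n h ht h1')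
        · exact hs (e2 T hT hTR n h ht h1')
    | r2 n =>
      cases hr' with
      | r1 =>
        rcases fA n h1' hs with h | h
        · exact ht (e1 S hS hSR n h hs h2')
        · exact ht (e1 T hT hTR n h hs h2')
      | r2 => exact hs h1'
    | r3 n =>
      cases hr' with
      | r3 => exact ht h2'
      | r4 => exact ht h2'
    | r4 n =>
      cases hr' with
      | r3 => exact ht h2'
      | r4 => exact ht h2'
    | r5 n =>
      cases hr' with
      | r5 => exact ht h2'
      | r6 => exact ht h2'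
    | r6 n =>
      cases hr' with
      | r5 => exact ht h2'
      | r6 => exact ht h2'

theorem clopen_compl (S : Set Pt) (h : ClopenSet phi S) : ClopenSet phi Sᶜ := by
  refine ⟨h.2, ?_⟩
  unfold OpenSet
  rw [compl_compl]
  exact h.1

theorem clop_lattice : ClopIsLattice phi := by
  intro S T
  constructor
  · refine ⟨⟨phi (S.1 ∪ T.1), key S.1 T.1 S.2 T.2⟩, ?_, ?_⟩
    · intro C hC
      rcases hC with hC | hC
      · rw [hC]
        exact Set.subset_union_left.trans (phi_ext _)
      · rw [Set.mem_singleton_iff] at hC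
        rw [hC]
        exact Set.subset_union_right.trans (phi_ext _)
    · intro C hC
      have h1 : S.1 ⊆ C.1 := hC (Set.mem_insert _ _)
      have h2 : T.1 ⊆ C.1 := hC (Set.mem_insert_of_mem _ rfl)
      have h3 : phi (S.1 ∪ T.1) ⊆ C.1 :=
        phi_least (Set.union_subset h1 h2) ((closed_iff C.1).1 C.2.1)
      exact h3
  · have hk := key S.1ᶜ T.1ᶜ (clopen_compl _ S.2) (clopen_compl _ T.2)
    refine ⟨⟨(phi (S.1ᶜ ∪ T.1ᶜ))ᶜ, clopen_compl _ hk⟩, ?_, ?_⟩
    · intro C hC
      rcases hC with hC | hC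
      · rw [hC]
        have h : S.1ᶜ ⊆ phi (S.1ᶜ ∪ T.1ᶜ) := Set.subset_union_left.trans (phi_ext _)
        exact Set.compl_subset_comm.1 h
      · rw [Set.mem_singleton_iff] at hC
        rw [hC]
        have h : T.1ᶜ ⊆ phi (S.1ᶜ ∪ T.1ᶜ) := Set.subset_union_right.trans (phi_ext _)
        exact Set.compl_subset_comm.1 h
    · intro C hC
      have h1 : C.1 ⊆ S.1 := hC (Set.mem_insert _ _)
      have h2 : C.1 ⊆ T.1 := hC (Set.mem_insert_of_mem _ rfl)
      have h3 : phi (S.1ᶜ ∪ T.1ᶜ) ⊆ C.1ᶜ :=
        phi_least (Set.union_subset (Set.compl_subset_compl.2 h1) (Set.compl_subset_compl.2 h2))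
          ((closed_iff C.1ᶜ).1 (clopen_compl _ C.2).1)
      exact Set.subset_compl_comm.1 h3

/-- The open set `{A n, b n : n}`. -/
def U : Set Pt := {p | ∃ n, p = A n ∨ p = b n}

theorem U_open : OpenSet phi U := by
  rw [open_iff]
  intro s t p hr hp
  obtain ⟨n, hp | hp⟩ := hp
  · subst hp
    cases hr with
    | r3 => exact Or.inl ⟨n + 1, Or.inl rfl⟩
    | r4 => exact Or.inl ⟨n + 1, Or.inr rfl⟩
  · subst hp
    cases hr

/-- An upper bound of the closure of `U`. -/
def V : Set Pt := {p | ∃ n, p = A n ∨ p = b n ∨ p = q n}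

theorem phiU_sub : phi U ⊆ V := by
  apply phi_least
  · rintro p ⟨n, hp | hp⟩
    · exact ⟨n, Or.inl hp⟩
    · exact ⟨n, Or.inr (Or.inl hp)⟩
  · intro s t p hr hs ht
    cases hr with
    | r1 n => exact ⟨n, Or.inr (Or.inr rfl)⟩
    | r2 n => exact ⟨n, Or.inr (Or.inr rfl)⟩
    | r3 n => exact ⟨n, Or.inl rfl⟩
    | r4 n => exact ⟨n, Or.inl rfl⟩
    | r5 n =>
      obtain ⟨m, h | h | h⟩ := hs <;> cases h
    | r6 n =>
      obtain ⟨m, h | h | h⟩ := hs <;> cases h

theorem phiU_reg : RegSet phi (phi U) := by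
  have h1 : U ⊆ inter phi (phi U) := by
    have h : phi (phi U)ᶜ ⊆ Uᶜ := by
      have h2 : phi (phi U)ᶜ ⊆ phi Uᶜ := phi_mono (Set.compl_subset_compl.2 (phi_ext U))
      have h3 : phi Uᶜ = Uᶜ := U_open
      rwa [h3] at h2
    exact Set.subset_compl_comm.1 h
  have h2 : inter phi (phi U) ⊆ phi U := by
    have h : (phi U)ᶜ ⊆ phi (phi U)ᶜ := phi_ext _
    exact Set.compl_subset_comm.1 h
  apply Set.Subset.antisymm
  · exact phi_mono h1
  · have := phi_mono h2
    rwa [phi_idem] at this

theorem phiU_not_open : ¬ OpenSet phi (phi U) := by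
  rw [open_iff]
  intro h
  have h0 : q 0 ∈ phi U :=
    phi_rule U _ _ _ (Rule.r1 0) (phi_ext U ⟨0, Or.inl rfl⟩) (phi_ext U ⟨0, Or.inr rfl⟩)
  rcases h _ _ _ (Rule.r2 0) h0 with h | h
  · obtain ⟨m, h | h | h⟩ := phiU_sub h <;> cases h
  · obtain ⟨m, h | h | h⟩ := phiU_sub h <;> cases h

theorem clop_ne_reg : ¬ ClopEqReg phi := by
  intro h
  have h1 : phi U ∈ {a | RegSet phi a} := phiU_reg
  rw [← h] at h1
  exact phiU_not_open h1.2

/-- The equivalence of Q1 for all closure spaces of semilattice type (in a given universe). -/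
def Equivalence : Prop :=
  ∀ (P : Type w) (φ : Set P → Set P), SemilatticeType φ → (ClopIsLattice φ ↔ ClopEqReg φ)

/-- There is a countable closure space of semilattice type whose clopen sets form a lattice
while not every regular closed set is clopen; so the equivalence of Q1 fails. -/
theorem result :
    (∃ (P : Type) (φ : Set P → Set P), Countable P ∧ SemilatticeType φ ∧
      ClopIsLattice φ ∧ ¬ ClopEqReg φ) ∧
    ¬ Equivalence.{0} := by
  have hc : Countable Pt := by
    have hinj : Function.Injective (fun p : Pt => match p with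
        | q n => ((0 : ℕ), n) | A n => (1, n) | B n => (2, n) | a n => (3, n) | b n => (4, n)) := by
      intro x y h
      cases x <;> cases y <;> simp_all
    exact hinj.countable
  refine ⟨⟨Pt, phi, hc, phi_semilatticeType, clop_lattice, clop_ne_reg⟩, ?_⟩
  intro h
  exact clop_ne_reg ((h Pt phi phi_semilatticeType).1 clop_lattice)

end Pool.Agent.Results.MP_df2171_co.LatticeNotRegular
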